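import Pool.Agent.H836.DBMain

/-!
# Murre's conjecture (B): products of cycles of motives with an algebraic determinant

Let `M = (X, ω)` be a direct summand of the motive of a variety `X` of dimension `d`, with
cohomology in one degree `q`, of dimension `b`; for instance `M = h^q(X)` for a Chow–Künneth
decomposition of `X`. We suppose that `M` is finite-dimensional in the sense of Kimura, and that the
determinant of `M` is algebraic: the line `Λ^b H^q(M) ⊆ H^(b q)(X^b)` is generated by the class of an
algebraic cycle (of codimension `c = b q / 2`). Here `Λ^b` is the symmetric power of `M` for odd `q`.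

Let `a_1, …, a_m` be cycles of `M` of codimensions `i_1, …, i_m` (that is, `ω_* a_k = a_k`, and
`a_k ∈ π_q CH^(i_k)(X)` for `M = h^q(X)`), and let `a_1 ∗ ⋯ ∗ a_m` be the product of the `a_k` on
`X^m`, antisymmetrized for even `q` and symmetrized for odd `q`.

**Theorem.** If `2 (i_1 + ⋯ + i_m) > b q`, or if `2 ((d - i_1) + ⋯ + (d - i_m)) > b (2 d - q)`, then
`a_1 ∗ ⋯ ∗ a_m = 0` in `CH(X^m)`.

By Kimura the products vanish for `m > b`. If all `a_k` have the same codimension `i`, then the
theorem says that they vanish for

  `m > b q / (2 i)`,  and for  `m > b (2 d - q) / (2 (d - i))`.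

One of the two bounds is smaller than Kimura's bound for all `i ≠ q / 2`. The part (B) of Murre's
conjectures says that there are no cycles `a ≠ 0` of `h^q(X)` of codimension `i` if `q < i` or
`q > 2 i`; in the first case the products of `m > b q / (2 i)` cycles vanish, fewer than `b / 2`, and
in the second case those of `m > b (2 d - q) / (2 d - 2 i)` cycles. The theorem also holds for the
cycles which do exist: for `X = C` a curve of genus `g`, `q = 1`, `i = 1` it says that the product of
more than `g` divisors of degree zero vanishes, a theorem of Bloch; for `q = i = d = 2` it is the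
bound by half of the transcendental rank for zero-cycles on surfaces (our HalfTranscendentalRank).

Examples. For an abelian variety `A` of dimension `g` the determinants of all the `h^q(A)` are
algebraic: `h^q(A) = Λ^q h^1(A)`, and so the determinant of `h^q(A)` is a power of the determinant
`h^(2 g)(A)` of `h^1(A)`. So the theorem is unconditional for the parts
`CH^i_(s)(A) = CH^i(h^(2 i - s)(A))` of Beauville's decomposition; Beauville's conjecture says that
they vanish for `s < 0`. It also holds for products of curves, for the transcendental motives of
abelian surfaces, of the K3 surfaces with Picard number at least 19, of Fermat surfaces, etc.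

The idea: `Λ^b M` has rank one. So the classes `Λ(x; y) = det(ω(x_i, y_j))` (permanents for odd `q`)
on `X^b × X^b` satisfy `Λ(x; y) Λ(z; w) = ± Λ(x; w) Λ(z; y)`, and if the determinant is algebraic
then `Λ(x; y)` is a product `D'(x) D(y)`, of cycles of codimension `c' = b d - c` and `c`. The product
`a_1 ∗ ⋯ ∗ a_m` is obtained from `Λ(x; y)` by inserting the cycles `a_k` in the variables
`x_1, …, x_m` and contracting the other variables `x_i` with `y_i`, up to a factor, which is not zero
if `m ≤ b`. The class `a_1(x_1) ⋯ a_m(x_m) D'(x)` has codimension larger than `b d` under the first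
condition; its push-forward to `X^(b - m)` has negative codimension under the second one.
-/

open CategoryTheory CategoryTheory.Limits AlgebraicGeometry
open Pool.Agent.H914 Pool.Agent.H914.VarClass Pool.Agent.H914.VarClass.Obj
open Pool.Agent.R903 Pool.Agent.H836 Pool.Agent.H836.DB

universe u v

namespace Pool.Agent.Results.MP_d6e134_ag.AlgebraicDeterminant

/-- Let `(X, ω)` be a motive of the parity of `q` and of dimension `n + 1`, finite-dimensional in the
sense of Kimura, with an algebraic determinant of codimension `c`; `c'` is the codimension of the
dual class, `c + c' = (n + 1) dim X`. Let `a_k` be cycles of `(X, ω)` of codimensions `i_k`. If the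
sum of the `i_k` is larger than `c`, or the sum of the `dim X - i_k` is larger than `c'`, then the
product of the `a_k`, antisymmetrized for even `q` and symmetrized for odd `q`, vanishes. -/
theorem result {k : Type u} [Field k] {𝒱 : VarClass k} {C : ChowTheory.{u, v} 𝒱}
    (hP : C.Polarized) {X : 𝒱.Obj} {ω : C.CH (X.prod X)} {q n c c' : ℕ}
    (h : HasAlgDet C ω q n c c') {m : ℕ} (i : Fin (m + 1) → ℕ)
    (hi : c < ∑ k, i k ∨ ∑ k, i k + c' < (m + 1) * X.dim) (a : Fin (m + 1) → C.CH X)
    (ha : ∀ k, IsCycleOf C ω (i k) (a k)) : detProd C q a = 0 :=
  main hP h i hi a ha

end Pool.Agent.Results.MP_d6e134_ag.AlgebraicDeterminant
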