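import Pool.Agent.H838.CFConv

/-!
# Murre's conjecture (B) for Chow-Kunneth decompositions with coefficients in a field

`𝒱` is a class of smooth projective geometrically irreducible varieties over the field `k` closed
under products (for the problem: all of them over `ℂ`), `C` the Chow groups with rational
coefficients (in the form of their formal properties, `IsChowProj`), and `H` a Weil cohomology
theory (for the problem: singular cohomology). `F` is a field of characteristic zero, `ChF F C` the
Chow groups with coefficients in `F`, and `CKF F X H p` says that `p` is a Chow-Kunneth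
decomposition of `X` with coefficients in `F`; `pw X n` is the power `X × ⋯ × X` with `n + 1`
factors. The two halves of (B) for `X` are: for every Chow-Kunneth
decomposition `p`, `p j` acts as zero on `F ⊗ CH^i(X)` for `j > 2 i` (that is, `F^0 CH^i(X) =
CH^i(X)`), and for `j < i` (that is, `F^(i+1) CH^i(X) = 0`).

1. `F` a number field of degree `n + 1`: every Chow-Kunneth decomposition `p` of `X` with
   coefficients in `F` gives a rational Chow-Kunneth decomposition `P` of the power with `n + 1`
   factors such that, for all `i`, `j`, `p j` acts as zero on `F ⊗ CH^i(X)` if `P j` acts as zero on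
   `CH^i` of the power.
2. `F` arbitrary: each half of (B) for the rational Chow-Kunneth decompositions of all powers of `X`
   implies the same half of (B) for all Chow-Kunneth decompositions of `X` with coefficients in `F`.
3. Conversely, (B) for `X` with coefficients in `F` contains (B) for `X`.
4. `F` a number field of degree `n + 1`, `Z` the power with `n + 1` factors: if the first half of
   (B) holds for `Z × Z`, then `X` has a Chow-Kunneth decomposition with coefficients in `F` if and
   only if it has a rational one.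
5. The same for arbitrary `F`, if the first half of (B) holds for all `Z × Z`.
6. (B) holds for all varieties if and only if it holds for all varieties with coefficients in `F`.
-/

set_option autoImplicit false

universe u v w t

namespace Pool.Agent.Results.MP_d6e134_ag.CoefficientFields

open Pool.Agent.H914 Pool.Agent.H914.VarClass Pool.Agent.H914.VarClass.Obj Pool.Agent.W492.BB
  Pool.Agent.W550.Corr Pool.Agent.TH133 Pool.Agent.H838.CF

theorem result {k : Type u} [Field k] {𝒱 : VarClass k} (C : TheoryData.{u, v, 0} 𝒱 ℚ)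
    [IsChowProj C] {K : Type w} [Field K] (H : WeilTheoryData.{u, v, w} C K) [IsWeilProj H]
    (F : Type t) [Field F] [Algebra ℚ F] :
    (∀ (X : 𝒱.Obj) (n : ℕ), Module.finrank ℚ F = n + 1 → ∀ p, CKF F X H p →
      ∃ P, IsCK H (pw X n) P ∧ ∀ i j : ℕ, (∀ x, C.Deg i x → C.act (P j) x = 0) →
        ∀ x, (ChF F C).Deg i x → (ChF F C).act (p j) x = 0) ∧
    (∀ X : 𝒱.Obj, ((∀ n, MurreB0 H (pw X n)) → B0F F X H) ∧
      ((∀ n, MurreB1 H (pw X n)) → B1F F X H)) ∧
    (∀ X : 𝒱.Obj, (B0F F X H → MurreB0 H X) ∧ (B1F F X H → MurreB1 H X)) ∧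
    (∀ (X : 𝒱.Obj) (n : ℕ), Module.finrank ℚ F = n + 1 → MurreB0 H ((pw X n).prod (pw X n)) →
      ((∃ p, CKF F X H p) ↔ ∃ π, IsCK H X π)) ∧
    (∀ X : 𝒱.Obj, (∀ n, MurreB0 H ((pw X n).prod (pw X n))) →
      ((∃ p, CKF F X H p) ↔ ∃ π, IsCK H X π)) ∧
    ((∀ Y : 𝒱.Obj, MurreB0 H Y ∧ MurreB1 H Y) ↔ ∀ Y : 𝒱.Obj, B0F F Y H ∧ B1F F Y H) := by
  have hback : ∀ X : 𝒱.Obj, (∃ π, IsCK H X π) → ∃ p, IsCKF F H X p := fun X ⟨π, hπ⟩ =>
    ⟨_, isCKF_extCK F hπ⟩
  simp only [b0F_conv, b1F_conv, exists_conv]
  refine ⟨fun X n hn p hp => one_decomposition' hn hp,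
    fun X => ⟨fun h => b0F_gen F h, fun h => b1F_gen F h⟩,
    fun X => ⟨fun h => b0_of_b0F F h, fun h => b1_of_b1F F h⟩, fun X n hn h => ?_,
    fun X h => ?_, ?_⟩
  · have : FiniteDimensional ℚ F := Module.finite_of_finrank_pos (by omega)
    exact ⟨fun ⟨p, hp⟩ => exists_CK_nf hn h hp, hback X⟩
  · exact ⟨fun ⟨p, hp⟩ => exists_CK_gen h hp, hback X⟩
  · exact ⟨fun h Y => ⟨b0F_gen F fun n => (h _).1, b1F_gen F fun n => (h _).2⟩,
      fun h Y => ⟨b0_of_b0F F (h Y).1, b1_of_b1F F (h Y).2⟩⟩

end Pool.Agent.Results.MP_d6e134_ag.CoefficientFields
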